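import Mathlib

/-!
# MP_d3656f_al, the definitions of the statement
-/

set_option autoImplicit false

namespace Pool.Agent.Work.MP_d3656f_al

/-- The product of the commutators `[a_i, b_i]`, `i = 1, …, g`, with `a_i = of (inl i)` and
`b_i = of (inr i)`. -/
def surfaceRelator (g : ℕ) : FreeGroup (Fin g ⊕ Fin g) :=
  ((List.finRange g).map (fun i : Fin g =>
    FreeGroup.of (Sum.inl i) * FreeGroup.of (Sum.inr i) *
      (FreeGroup.of (Sum.inl i))⁻¹ * (FreeGroup.of (Sum.inr i))⁻¹)).prod

/-- The fundamental group of the closed orientable surface of genus `g`. -/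
def SurfaceGroup (g : ℕ) : Type :=
  PresentedGroup ({surfaceRelator g} : Set (FreeGroup (Fin g ⊕ Fin g)))

instance (g : ℕ) : Group (SurfaceGroup g) :=
  inferInstanceAs (Group (PresentedGroup ({surfaceRelator g} : Set (FreeGroup (Fin g ⊕ Fin g)))))

/-- The outer automorphism group: automorphisms modulo inner automorphisms. -/
def Out (G : Type) [Group G] : Type :=
  MulAut G ⧸ Subgroup.normalClosure (Set.range (MulAut.conj : G →* MulAut G))

instance (G : Type) [Group G] : Group (Out G) :=
  QuotientGroup.Quotient.group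
    (Subgroup.normalClosure (Set.range (MulAut.conj : G →* MulAut G)))

/-- The free factor of `F_n` generated by all basis elements except the last `k` ones. -/
def lowFactor (n k : ℕ) : Subgroup (FreeGroup (Fin n)) :=
  Subgroup.closure {x | ∃ i : Fin n, (i : ℕ) + k < n ∧ x = FreeGroup.of i}

/-- With `P = lowFactor n k`: the automorphisms `α` of `F_n` for which some `w ∈ P` satisfies
`α x = w x w⁻¹` for the basis elements `x` of `P` and `α y ∈ P y P` for each of the last `k`
basis elements `y`. -/
def D (n k : ℕ) : Set (MulAut (FreeGroup (Fin n))) :=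
  {α | ∃ w ∈ lowFactor n k,
    (∀ i : Fin n, (i : ℕ) + k < n → α (FreeGroup.of i) = w * FreeGroup.of i * w⁻¹) ∧
    ∀ i : Fin n, n ≤ (i : ℕ) + k →
      ∃ u ∈ lowFactor n k, ∃ v ∈ lowFactor n k, α (FreeGroup.of i) = u * FreeGroup.of i * v}

end Pool.Agent.Work.MP_d3656f_al
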