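import Mathlib

/-!
# MP_d3656f_al, common definitions (FIXED, do not edit)

Minkowski space `V` (third coordinate is time), the form `Q` (minus the usual form, positive on
future vectors), the closed future cone, the hyperboloid `Hyp`, the circle at infinity `Bd`
(null vectors of time coordinate `1`), cocompact torsion free models `Model G`, betweenness `Bt`,
the boundary map `Model.bd` of an automorphism, homogeneous quasimorphisms.
-/

set_option autoImplicit false

namespace Pool.Agent.Work.MP_d3656f_al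

/-- Minkowski space; the coordinate `2` is time. -/
abbrev V : Type := Fin 3 → ℝ

/-- Minus the Minkowski form. -/
def Q (x y : V) : ℝ := x 2 * y 2 - x 0 * y 0 - x 1 * y 1

/-- The closed future cone without its tip. -/
def Cone : Set V := {x | 0 ≤ Q x x ∧ 0 < x 2}

/-- The hyperbolic plane. -/
def Hyp : Set V := {x | Q x x = 1 ∧ 0 < x 2}

/-- The circle at infinity: null vectors of time coordinate `1`. -/
def Bd : Set V := {x | Q x x = 0 ∧ x 2 = 1}

/-- The base point of the hyperbolic plane. -/
def base : V := ![0, 0, 1]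

/-- The determinant. On `Bd` it is positive iff the three points are in counterclockwise order. -/
def det3 (x y z : V) : ℝ :=
  x 0 * (y 1 * z 2 - y 2 * z 1) - x 1 * (y 0 * z 2 - y 2 * z 0) + x 2 * (y 0 * z 1 - y 1 * z 0)

/-- Normalisation to time coordinate `1`. -/
noncomputable def nrm (x : V) : V := (x 2)⁻¹ • x

/-- `z` is between `x` and `y` up to the constant `C`. -/
def Bt (C : ℝ) (x z y : V) : Prop := Q x z * Q z y ≤ C * Q x y

/-- `v` is central for the triple `a b c` up to the constant `C`. -/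
def Cen (C : ℝ) (v a b c : V) : Prop := Bt C a v b ∧ Bt C b v c ∧ Bt C a v c

/-- The visual distance of `x` and `y` seen from `v`. -/
noncomputable def del (v x y : V) : ℝ := Real.sqrt (Q x y / (Q v x * Q v y))

/-- Coordinate of `Bd` minus the point `a` (see `cN` for the inverse). -/
noncomputable def cX (a x : V) : ℝ := -(a 0 * x 1 - a 1 * x 0) / Q a x

/-- The null vector with coordinate `t` with respect to `a ∈ Bd` and with `Q a (cN a t) = 1`. -/
noncomputable def cN (a : V) (t : ℝ) : V :=
  ![(t ^ 2 - 1) / 2 * a 0 + t * a 1, (t ^ 2 - 1) / 2 * a 1 - t * a 0, (t ^ 2 + 1) / 2]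

/-- A torsion free group acting properly and cocompactly on the hyperbolic plane by orientation
preserving isometries. -/
structure Model (G : Type) [Group G] where
  rho : G →* Matrix (Fin 3) (Fin 3) ℝ
  pres : ∀ (g : G) (x y : V), Q ((rho g).mulVec x) ((rho g).mulVec y) = Q x y
  fut : ∀ g : G, 0 < ((rho g).mulVec base) 2
  det_one : ∀ g : G, (rho g).det = 1
  proper : ∀ R : ℝ, {g : G | Q base ((rho g).mulVec base) ≤ R}.Finite
  cocpt : ∃ R : ℝ, ∀ x ∈ Hyp, ∃ g : G, Q x ((rho g).mulVec base) ≤ R
  tf : ∀ g : G, g ≠ 1 → ∀ n : ℕ, 0 < n → g ^ n ≠ 1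

namespace Model

variable {G : Type} [Group G] (M : Model G)

/-- The linear action. -/
def act (g : G) (x : V) : V := (M.rho g).mulVec x

/-- The orbit map. -/
def pt (g : G) : V := M.act g base

/-- The function `Q` on the group. -/
def q (u v : G) : ℝ := Q (M.pt u) (M.pt v)

/-- The action on the circle. -/
noncomputable def bact (g : G) (x : V) : V := nrm (M.act g x)

/-- `η` is the image of the boundary point `ξ` under the automorphism `Φ`. -/
def IsExt (Φ : MulAut G) (ξ η : V) : Prop :=
  η ∈ Bd ∧ ∀ C : ℝ, ∃ C' : ℝ, ∀ z : G, Bt C base (M.pt z) ξ → Bt C' base (M.pt (Φ z)) η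

/-- The boundary map of an automorphism. -/
noncomputable def bd (Φ : MulAut G) (ξ : V) : V := Classical.epsilon (M.IsExt Φ ξ)

/-- `Φ` preserves the orientation of the circle. -/
def OP (Φ : MulAut G) : Prop :=
  ∀ a ∈ Bd, ∀ b ∈ Bd, ∀ c ∈ Bd, 0 < det3 a b c → 0 < det3 (M.bd Φ a) (M.bd Φ b) (M.bd Φ c)

/-- `Φ` reverses the orientation of the circle. -/
def OR (Φ : MulAut G) : Prop :=
  ∀ a ∈ Bd, ∀ b ∈ Bd, ∀ c ∈ Bd, 0 < det3 a b c → det3 (M.bd Φ a) (M.bd Φ b) (M.bd Φ c) < 0

/-- The boundary map of `Φ` has three different fixed points. -/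
def Fix3 (Φ : MulAut G) : Prop :=
  ∃ a ∈ Bd, ∃ b ∈ Bd, ∃ c ∈ Bd, a ≠ b ∧ b ≠ c ∧ a ≠ c ∧
    M.bd Φ a = a ∧ M.bd Φ b = b ∧ M.bd Φ c = c

/-- The open arc from `a` counterclockwise to `b` is a component of the complement of the fixed
point set of the boundary map. -/
def Gap (Φ : MulAut G) (a b : V) : Prop :=
  a ∈ Bd ∧ b ∈ Bd ∧ a ≠ b ∧ M.bd Φ a = a ∧ M.bd Φ b = b ∧
    ∀ x ∈ Bd, 0 < det3 a x b → M.bd Φ x ≠ x

end Model

/-- `q` is a homogeneous quasimorphism on the subgroup `H`. -/
def HQM {A : Type} [Group A] (H : Subgroup A) (q : A → ℝ) : Prop :=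
  (∃ D : ℝ, ∀ x ∈ H, ∀ y ∈ H, |q (x * y) - q x - q y| ≤ D) ∧
    ∀ x ∈ H, ∀ n : ℕ, q (x ^ n) = n * q x

/-- `z` is quasi null: every homogeneous quasimorphism on a subgroup of finite index of the
centraliser of `z` vanishes on the powers of `z`. -/
def QuasiNull {A : Type} [Group A] (z : A) : Prop :=
  ∀ H : Subgroup A, H ≤ Subgroup.centralizer {z} →
    H.relIndex (Subgroup.centralizer {z}) ≠ 0 →
    ∀ q : A → ℝ, HQM H q → ∀ k : ℕ, z ^ k ∈ H → q (z ^ k) = 0

/-- The outer automorphism group, in the form of the frozen statement. -/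
abbrev OutG (G : Type) [Group G] : Type :=
  MulAut G ⧸ Subgroup.normalClosure (Set.range (MulAut.conj : G →* MulAut G))

/-- The class of an automorphism in the outer automorphism group. -/
def cls {G : Type} [Group G] : MulAut G →* OutG G :=
  QuotientGroup.mk' (Subgroup.normalClosure (Set.range (MulAut.conj : G →* MulAut G)))

/-- The closed orientable surface group of genus `g`. -/
abbrev SG (g : ℕ) : Type :=
  PresentedGroup
    ({((List.finRange g).map (fun i : Fin g =>
        FreeGroup.of (Sum.inl i) * FreeGroup.of (Sum.inr i) *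
          (FreeGroup.of (Sum.inl i))⁻¹ * (FreeGroup.of (Sum.inr i))⁻¹)).prod} :
      Set (FreeGroup (Fin g ⊕ Fin g)))

/-- The generators of the surface group: `sg (inl i) = a_i`, `sg (inr i) = b_i`. -/
def sg {g : ℕ} (j : Fin g ⊕ Fin g) : SG g := PresentedGroup.of j

/-- The product of the commutators `[a_k, b_k]` over `k < i`. -/
def sP {g : ℕ} (i : ℕ) : SG g :=
  (((List.finRange g).take i).map
    (fun k : Fin g => sg (Sum.inl k) * sg (Sum.inr k) * (sg (Sum.inl k))⁻¹ *
      (sg (Sum.inr k))⁻¹)).prod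

/-- The factor `P` of the free group: generated by all basis elements except the last two. -/
def sub2 (n : ℕ) : Subgroup (FreeGroup (Fin n)) :=
  Subgroup.closure {x | ∃ i : Fin n, (i : ℕ) + 2 < n ∧ x = FreeGroup.of i}

end Pool.Agent.Work.MP_d3656f_al
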