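import Mathlib
import Pool.Agent.Work.MP_d3656f_al.FDefs
import Pool.Agent.Work.MP_d3656f_al.A.Fam

/-!
# Gen : from `k = 2` to all `k ≥ 2`

`D n k` is contained in the product of `D n 2` (inner automorphisms by `w`) and of the sets `F_j` of the
automorphisms `x_j ↦ u x_j v`, `u, v ∈ lowFactor n k`; the swap of `x_j` and the last letter conjugates
`F_j` into `D n 2`.
-/

set_option autoImplicit false

namespace Pool.Agent.Work.MP_d3656f_al

private theorem low_fix {n k : ℕ} {f : FreeGroup (Fin n) →* FreeGroup (Fin n)}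
    (h : ∀ i : Fin n, (i : ℕ) + k < n → f (FreeGroup.of i) = FreeGroup.of i)
    {w : FreeGroup (Fin n)} (hw : w ∈ lowFactor n k) : f w = w := by
  unfold lowFactor at hw
  induction hw using Subgroup.closure_induction with
  | mem x hx =>
    obtain ⟨i, hi, rfl⟩ := hx
    exact h i hi
  | one => exact map_one f
  | mul x y _ _ hx hy => rw [map_mul, hx, hy]
  | inv x _ hx => rw [map_inv, hx]

private theorem low_fix' {n k : ℕ} {α : MulAut (FreeGroup (Fin n))}
    (h : ∀ i : Fin n, (i : ℕ) + k < n → α (FreeGroup.of i) = FreeGroup.of i)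
    {w : FreeGroup (Fin n)} (hw : w ∈ lowFactor n k) : α w = w :=
  low_fix (f := α.toMonoidHom) h hw

private theorem low_mono {n k l : ℕ} (h : k ≤ l) : lowFactor n l ≤ lowFactor n k := by
  unfold lowFactor
  apply Subgroup.closure_mono
  rintro x ⟨i, hi, rfl⟩
  exact ⟨i, by omega, rfl⟩

private theorem rho_ex {n k : ℕ} (j : Fin n) (hj : n ≤ (j : ℕ) + k) {u v : FreeGroup (Fin n)}
    (hu : u ∈ lowFactor n k) (hv : v ∈ lowFactor n k) :
    ∃ ρ : MulAut (FreeGroup (Fin n)), ρ (FreeGroup.of j) = u * FreeGroup.of j * v ∧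
      ∀ m, m ≠ j → ρ (FreeGroup.of m) = FreeGroup.of m := by
  classical
  have key : ∀ u v : FreeGroup (Fin n), ∃ f : FreeGroup (Fin n) →* FreeGroup (Fin n),
      f (FreeGroup.of j) = u * FreeGroup.of j * v ∧ ∀ m, m ≠ j → f (FreeGroup.of m) = FreeGroup.of m := by
    intro u v
    refine ⟨FreeGroup.lift fun m => if m = j then u * FreeGroup.of j * v else FreeGroup.of m, ?_, ?_⟩
    · rw [FreeGroup.lift_apply_of, if_pos rfl]
    · intro m hm
      rw [FreeGroup.lift_apply_of, if_neg hm]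
  have hne : ∀ i : Fin n, (i : ℕ) + k < n → i ≠ j := by
    intro i hi h
    rw [h] at hi
    omega
  obtain ⟨f, f1, f2⟩ := key u v
  obtain ⟨f', f1', f2'⟩ := key u⁻¹ v⁻¹
  have ff : ∀ {x}, x ∈ lowFactor n k → f x = x := fun hx => low_fix (fun i hi => f2 i (hne i hi)) hx
  have ff' : ∀ {x}, x ∈ lowFactor n k → f' x = x := fun hx => low_fix (fun i hi => f2' i (hne i hi)) hx
  refine ⟨MonoidHom.toMulEquiv f f' ?_ ?_, f1, f2⟩
  · apply FreeGroup.ext_hom
    intro m
    by_cases hm : m = j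
    · subst hm
      rw [MonoidHom.comp_apply, f1, map_mul, map_mul, ff' hu, ff' hv, f1', MonoidHom.id_apply]
      group
    · rw [MonoidHom.comp_apply, f2 m hm, f2' m hm, MonoidHom.id_apply]
  · apply FreeGroup.ext_hom
    intro m
    by_cases hm : m = j
    · subst hm
      rw [MonoidHom.comp_apply, f1', map_mul, map_mul, ff ((lowFactor n k).inv_mem hu),
        ff ((lowFactor n k).inv_mem hv), f1, MonoidHom.id_apply]
      group
    · rw [MonoidHom.comp_apply, f2' m hm, f2 m hm, MonoidHom.id_apply]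

/-- The automorphisms `x_j ↦ u x_j v`. -/
private def FF (n k : ℕ) (j : Fin n) : Set (MulAut (FreeGroup (Fin n))) :=
  {ρ | ∃ u ∈ lowFactor n k, ∃ v ∈ lowFactor n k, ρ (FreeGroup.of j) = u * FreeGroup.of j * v ∧
    ∀ m, m ≠ j → ρ (FreeGroup.of m) = FreeGroup.of m}

private theorem FF_fin {n k : ℕ} (hn : 4 ≤ n) (hk : 2 ≤ k) {Γ : Type} [Group Γ]
    (φ : MulAut (FreeGroup (Fin n)) →* Γ) (h : (φ '' D n 2).Finite) (j : Fin n)
    (hj : n ≤ (j : ℕ) + k) : (φ '' FF n k j).Finite := by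
  obtain ⟨l, hl⟩ : ∃ l : Fin n, (l : ℕ) = n - 1 := ⟨⟨n - 1, by omega⟩, rfl⟩
  obtain ⟨σ, hσ⟩ : ∃ σ : MulAut (FreeGroup (Fin n)),
      ∀ m, σ (FreeGroup.of m) = FreeGroup.of (Equiv.swap j l m) :=
    ⟨FreeGroup.freeGroupCongr (Equiv.swap j l), fun m => by simp⟩
  have hσ2 : σ * σ = 1 := by
    apply aut_ext
    intro m
    rw [MulAut.mul_apply, hσ, hσ, Equiv.swap_apply_self]
    rfl
  have hσP : ∀ {x}, x ∈ lowFactor n k → σ x = x := fun hx => low_fix' (fun i hi => by
    rw [hσ, Equiv.swap_apply_of_ne_of_ne]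
    · intro e
      rw [e] at hi
      omega
    · intro e
      rw [e] at hi
      omega) hx
  refine (h.image fun y => φ σ * y * φ σ).subset ?_
  rintro _ ⟨ρ, ⟨u, hu, v, hv, e1, e2⟩, rfl⟩
  refine ⟨φ (σ * ρ * σ), ⟨σ * ρ * σ, ?_, rfl⟩, ?_⟩
  · have a1 : (σ * ρ * σ) (FreeGroup.of l) = u * FreeGroup.of l * v := by
      rw [MulAut.mul_apply, MulAut.mul_apply, hσ, Equiv.swap_apply_right, e1, map_mul, map_mul,
        hσP hu, hσP hv, hσ, Equiv.swap_apply_left]
    have a2 : ∀ m, m ≠ l → (σ * ρ * σ) (FreeGroup.of m) = FreeGroup.of m := by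
      intro m hm
      rw [MulAut.mul_apply, MulAut.mul_apply, hσ]
      have hne : Equiv.swap j l m ≠ j := by
        intro e
        have e' := congrArg (Equiv.swap j l) e
        rw [Equiv.swap_apply_self, Equiv.swap_apply_left] at e'
        exact hm e'
      rw [e2 _ hne, hσ, Equiv.swap_apply_self]
    refine ⟨1, one_mem _, fun i hi => ?_, fun i hi => ?_⟩
    · rw [a2 i (by intro e; rw [e] at hi; omega)]
      simp
    · by_cases hil : i = l
      · subst hil
        exact ⟨u, low_mono hk hu, v, low_mono hk hv, a1⟩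
      · exact ⟨1, one_mem _, 1, one_mem _, by rw [a2 i hil]; simp⟩
  · have e3 : φ σ * φ σ = 1 := by rw [← map_mul, hσ2, map_one]
    simp only [map_mul]
    calc φ σ * (φ σ * φ ρ * φ σ) * φ σ = (φ σ * φ σ) * φ ρ * (φ σ * φ σ) := by group
      _ = φ ρ := by rw [e3, one_mul, mul_one]

/-- Automorphisms moving only the letters of `T`. -/
private def EE (n k : ℕ) (T : Finset (Fin n)) : Set (MulAut (FreeGroup (Fin n))) :=
  {β | (∀ m, m ∉ T → β (FreeGroup.of m) = FreeGroup.of m) ∧ ∀ m ∈ T, n ≤ (m : ℕ) + k ∧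
    ∃ u ∈ lowFactor n k, ∃ v ∈ lowFactor n k, β (FreeGroup.of m) = u * FreeGroup.of m * v}

open scoped Pointwise in
private theorem EE_fin {n k : ℕ} (hn : 4 ≤ n) (hk : 2 ≤ k) {Γ : Type} [Group Γ]
    (φ : MulAut (FreeGroup (Fin n)) →* Γ) (h : (φ '' D n 2).Finite) (T : Finset (Fin n)) :
    (φ '' EE n k T).Finite := by
  classical
  induction T using Finset.induction_on with
  | empty =>
    refine (Set.finite_singleton (1 : Γ)).subset ?_
    rintro _ ⟨β, ⟨h1, -⟩, rfl⟩
    have : β = 1 := aut_ext fun m => by rw [h1 m (by simp)]; rfl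
    rw [this, map_one]
    rfl
  | insert j T hjT ih =>
    by_cases hj : n ≤ (j : ℕ) + k
    · refine (ih.mul (FF_fin hn hk φ h j hj)).subset ?_
      rintro _ ⟨β, ⟨h1, h2⟩, rfl⟩
      obtain ⟨-, u, hu, v, hv, e1⟩ := h2 j (Finset.mem_insert_self _ _)
      obtain ⟨ρ, r1, r2⟩ := rho_ex j hj hu hv
      have hβP : ∀ {x}, x ∈ lowFactor n k → β x = x := fun hx => low_fix' (fun i hi => h1 i (by
        intro hm
        have := (h2 i hm).1
        omega)) hx
      have hρP : ∀ {x}, x ∈ lowFactor n k → ρ x = x := fun hx => low_fix' (fun i hi => r2 i (by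
        intro e
        rw [e] at hi
        omega)) hx
      have r3 : ∀ m, m ≠ j → ρ⁻¹ (FreeGroup.of m) = FreeGroup.of m := by
        intro m hm
        apply ρ.injective
        rw [MulAut.apply_inv_self, r2 m hm]
      have r4 : ρ⁻¹ (FreeGroup.of j) = u⁻¹ * FreeGroup.of j * v⁻¹ := by
        apply ρ.injective
        rw [MulAut.apply_inv_self, map_mul, map_mul, hρP ((lowFactor n k).inv_mem hu),
          hρP ((lowFactor n k).inv_mem hv), r1]
        group
      refine Set.mem_mul.2 ⟨φ (β * ρ⁻¹), ⟨β * ρ⁻¹, ⟨fun m hm => ?_, fun m hm => ?_⟩, rfl⟩, φ ρ,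
        ⟨ρ, ⟨u, hu, v, hv, r1, r2⟩, rfl⟩, ?_⟩
      · rw [MulAut.mul_apply]
        by_cases hmj : m = j
        · subst hmj
          rw [r4, map_mul, map_mul, hβP ((lowFactor n k).inv_mem hu),
            hβP ((lowFactor n k).inv_mem hv), e1]
          group
        · rw [r3 m hmj, h1 m]
          simp only [Finset.mem_insert, not_or]
          exact ⟨hmj, hm⟩
      · have hmj : m ≠ j := fun e => hjT (e ▸ hm)
        rw [MulAut.mul_apply, r3 m hmj]
        exact h2 m (Finset.mem_insert_of_mem hm)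
      · rw [← map_mul, inv_mul_cancel_right]
    · refine Set.finite_empty.subset ?_
      rintro _ ⟨β, ⟨-, h2⟩, rfl⟩
      exact (hj (h2 j (Finset.mem_insert_self _ _)).1).elim

open scoped Pointwise in
theorem gen {n k : ℕ} (hn : 4 ≤ n) (hk : 2 ≤ k) {Γ : Type} [Group Γ]
    (φ : MulAut (FreeGroup (Fin n)) →* Γ) (h : (φ '' D n 2).Finite) : (φ '' D n k).Finite := by
  classical
  refine (h.mul (EE_fin hn hk φ h (Finset.univ.filter fun m : Fin n => n ≤ (m : ℕ) + k))).subset ?_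
  rintro _ ⟨α, ⟨w, hw, h1, h2⟩, rfl⟩
  refine Set.mem_mul.2 ⟨φ (MulAut.conj w), ⟨MulAut.conj w, ⟨w, low_mono hk hw, fun i _ => ?_,
    fun i _ => ⟨w, low_mono hk hw, w⁻¹, (lowFactor n 2).inv_mem (low_mono hk hw), ?_⟩⟩, rfl⟩,
    φ ((MulAut.conj w)⁻¹ * α), ⟨(MulAut.conj w)⁻¹ * α, ⟨fun m hm => ?_, fun m hm => ?_⟩, rfl⟩, ?_⟩
  · rw [MulAut.conj_apply]
  · rw [MulAut.conj_apply]
  · simp only [Finset.mem_filter, Finset.mem_univ, true_and, not_le] at hm
    rw [MulAut.mul_apply, h1 m hm, MulAut.conj_inv_apply]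
    group
  · simp only [Finset.mem_filter, Finset.mem_univ, true_and] at hm
    obtain ⟨u, hu, v, hv, e⟩ := h2 m hm
    refine ⟨hm, w⁻¹ * u, (lowFactor n k).mul_mem ((lowFactor n k).inv_mem hw) hu, v * w,
      (lowFactor n k).mul_mem hv hw, ?_⟩
    rw [MulAut.mul_apply, e, MulAut.conj_inv_apply]
    group
  · rw [← map_mul, mul_inv_cancel_left]

end Pool.Agent.Work.MP_d3656f_al
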