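import Mathlib
import Pool.Agent.Work.MP_d3656f_al.Defs

/-!
# MP_d3656f_al, definitions for the index theorem (FIXED, do not edit)

The universal cover of the surface as a cell complex: vertices `v ∈ π`, edges `(v, j)` from `v` to
`v * sg j`, faces `u ∈ π` with boundary
`∂ r_u = Σ_i (u P_i, a_i) + (u P_i a_i, b_i) - (u P_i a_i b_i a_i⁻¹, a_i) - (u P_{i+1}, b_i)`.
One-chains are functions `c : Fin g ⊕ Fin g → SG g → ℤ` (`c j v` is the coefficient of `(v, j)`),
two-chains are functions `m : SG g → ℤ`; no finiteness is required.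
-/

set_option autoImplicit false

namespace Pool.Agent.Work.MP_d3656f_al

open MonoidAlgebra

/-- The Kronecker symbol. -/
noncomputable def dl {α : Type} (v u : α) : ℤ := by
  classical exact if u = v then 1 else 0

/-- The four group elements of the boundary of a face, letter `a_i`, sign plus. -/
def pa {g : ℕ} (i : Fin g) : SG g := sP (i : ℕ)

/-- Letter `b_i`, sign plus. -/
def pb {g : ℕ} (i : Fin g) : SG g := sP (i : ℕ) * sg (Sum.inl i)

/-- Letter `a_i`, sign minus. -/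
def ma {g : ℕ} (i : Fin g) : SG g :=
  sP (i : ℕ) * sg (Sum.inl i) * sg (Sum.inr i) * (sg (Sum.inl i))⁻¹

/-- Letter `b_i`, sign minus. -/
def mb {g : ℕ} (i : Fin g) : SG g := sP ((i : ℕ) + 1)

/-- The boundary of a one-chain. -/
def d1 {g : ℕ} (c : Fin g ⊕ Fin g → SG g → ℤ) (v : SG g) : ℤ :=
  ∑ j, (c j (v * (sg j)⁻¹) - c j v)

/-- The boundary of a two-chain. -/
def d2 {g : ℕ} (m : SG g → ℤ) : Fin g ⊕ Fin g → SG g → ℤ
  | Sum.inl i, v => m (v * (pa i)⁻¹) - m (v * (ma i)⁻¹)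
  | Sum.inr i, v => m (v * (pb i)⁻¹) - m (v * (mb i)⁻¹)

/-- Exponent sum of the generator `k`. -/
def abz {g : ℕ} (k : Fin g ⊕ Fin g) : SG g →* Multiplicative ℤ :=
  PresentedGroup.toGroup (f := fun j => Multiplicative.ofAdd (if j = k then (1 : ℤ) else 0)) (by
    intro r hr
    rw [Set.mem_singleton_iff] at hr
    subst hr
    rw [map_list_prod, List.map_map]
    apply List.prod_eq_one
    intro x hx
    rw [List.mem_map] at hx
    obtain ⟨i, -, rfl⟩ := hx
    simp only [Function.comp_apply, map_mul, map_inv, FreeGroup.lift_apply_of]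
    rw [mul_right_comm, mul_inv_cancel_right, mul_inv_cancel])

/-- The matrix of an automorphism on the first homology. -/
def matH {g : ℕ} (Φ : MulAut (SG g)) : Matrix (Fin g ⊕ Fin g) (Fin g ⊕ Fin g) ℤ :=
  Matrix.of fun j k => Multiplicative.toAdd (abz k (Φ (sg j)))

/-- The Fox derivatives of the relator. -/
noncomputable def fD {g : ℕ} : Fin g ⊕ Fin g → MonoidAlgebra ℤ (SG g)
  | Sum.inl i => single (pa i) 1 - single (ma i) 1
  | Sum.inr i => single (pb i) 1 - single (mb i) 1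

/-- The ring homomorphism of the group ring induced by an automorphism. -/
noncomputable def mapR {g : ℕ} (Φ : MulAut (SG g)) :
    MonoidAlgebra ℤ (SG g) →+* MonoidAlgebra ℤ (SG g) :=
  MonoidAlgebra.mapDomainRingHom ℤ Φ.toMonoidHom

/-- The augmentation. -/
noncomputable def eps {g : ℕ} (x : MonoidAlgebra ℤ (SG g)) : ℤ := x.coeff.sum fun _ r => r

/-- A chain map over the automorphism `Φ`. -/
structure TD {g : ℕ} (Φ : MulAut (SG g)) where
  W : Fin g ⊕ Fin g → Fin g ⊕ Fin g → MonoidAlgebra ℤ (SG g)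
  c : MonoidAlgebra ℤ (SG g)
  hW : ∀ j, ∑ k, W j k * (single (sg k) 1 - 1) = single (Φ (sg j)) 1 - 1
  hc : ∀ k, c * fD k = ∑ j, mapR Φ (fD j) * W j k

/-- The index function of a chain map. -/
noncomputable def TD.chi {g : ℕ} {Φ : MulAut (SG g)} (T : TD Φ) : MonoidAlgebra ℤ (SG g) :=
  1 - ∑ j, T.W j j + T.c

/-- A contraction of the chain complex to the point `p` (an orbit point or a boundary point), with
supports between the cell and `p`; `e` is the chain of `p`. -/
structure KD {g : ℕ} (M : Model (SG g)) (C : ℝ) (p : V) (e : SG g → ℤ) where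
  K0 : SG g → Fin g ⊕ Fin g → SG g → ℤ
  K1 : SG g → Fin g ⊕ Fin g → SG g → ℤ
  h0 : ∀ v u, d1 (K0 v) u = dl v u - e u
  h1 : ∀ v j k u, d2 (K1 v j) k u = dl (v, j) (u, k) - (K0 (v * sg j) k u - K0 v k u)
  h2 : ∀ v u, ∑ i : Fin g, (K1 (v * pa i) (Sum.inl i) u + K1 (v * pb i) (Sum.inr i) u
    - K1 (v * ma i) (Sum.inl i) u - K1 (v * mb i) (Sum.inr i) u) = dl v u
  s0 : ∀ v j u, K0 v j u ≠ 0 → Bt C (M.pt v) (M.pt u) p
  s1 : ∀ v j u, K1 v j u ≠ 0 → Bt C (M.pt v) (M.pt u) p
  e0 : ∀ x, M.bact x p = nrm p → ∀ v j u, K0 (x * v) j (x * u) = K0 v j u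
  e1 : ∀ x, M.bact x p = nrm p → ∀ v j u, K1 (x * v) j (x * u) = K1 v j u

end Pool.Agent.Work.MP_d3656f_al
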