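import Mathlib
import Pool.Agent.Work.MP_d3656f_al.W.Mod
import Pool.Agent.Work.MP_d3656f_al.A.End
import Pool.Agent.Work.MP_d3656f_al.A.FinOrd
import Pool.Agent.Work.MP_d3656f_al.N.Tors

/-!
# Main : assembly
-/

set_option autoImplicit false

namespace Pool.Agent.Work.MP_d3656f_al

theorem main {n g : ℕ} (hn : 4 ≤ n) (hg : 2 ≤ g)
    (φ : MulAut (FreeGroup (Fin n)) →* OutG (SG g)) :
    (φ '' {α : MulAut (FreeGroup (Fin n)) | ∃ w ∈ sub2 n,
      (∀ i : Fin n, (i : ℕ) + 2 < n → α (FreeGroup.of i) = w * FreeGroup.of i * w⁻¹) ∧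
      ∀ i : Fin n, n ≤ (i : ℕ) + 2 →
        ∃ u ∈ sub2 n, ∃ v ∈ sub2 n, α (FreeGroup.of i) = u * FreeGroup.of i * v}).Finite := by
  obtain ⟨M⟩ := model_ex hg
  exact endgame hn φ (fun z hz => fin_ord hg M φ hz) (fun T hT => tors_fin hg M T hT)

end Pool.Agent.Work.MP_d3656f_al
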