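import Mathlib
import Pool.Agent.Work.MP_d3656f_al.Main

set_option autoImplicit false

namespace Pool.Agent.Work.MP_d3656f_al.Final

theorem result :
    ∀ n g : ℕ, 4 ≤ n → 2 ≤ g →
      ∀ φ : MulAut (FreeGroup (Fin n)) →*
        (MulAut (PresentedGroup
            ({((List.finRange g).map (fun i : Fin g =>
                FreeGroup.of (Sum.inl i) * FreeGroup.of (Sum.inr i) *
                  (FreeGroup.of (Sum.inl i))⁻¹ * (FreeGroup.of (Sum.inr i))⁻¹)).prod} :
              Set (FreeGroup (Fin g ⊕ Fin g)))) ⧸
          Subgroup.normalClosure (Set.range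
            (MulAut.conj : PresentedGroup
                ({((List.finRange g).map (fun i : Fin g =>
                    FreeGroup.of (Sum.inl i) * FreeGroup.of (Sum.inr i) *
                      (FreeGroup.of (Sum.inl i))⁻¹ * (FreeGroup.of (Sum.inr i))⁻¹)).prod} :
                  Set (FreeGroup (Fin g ⊕ Fin g))) →*
              MulAut (PresentedGroup
                ({((List.finRange g).map (fun i : Fin g =>
                    FreeGroup.of (Sum.inl i) * FreeGroup.of (Sum.inr i) *
                      (FreeGroup.of (Sum.inl i))⁻¹ * (FreeGroup.of (Sum.inr i))⁻¹)).prod} :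
                  Set (FreeGroup (Fin g ⊕ Fin g))))))),
        (φ '' {α : MulAut (FreeGroup (Fin n)) |
          ∃ w ∈ Subgroup.closure {x : FreeGroup (Fin n) |
              ∃ i : Fin n, (i : ℕ) + 2 < n ∧ x = FreeGroup.of i},
            (∀ i : Fin n, (i : ℕ) + 2 < n →
              α (FreeGroup.of i) = w * FreeGroup.of i * w⁻¹) ∧
            ∀ i : Fin n, n ≤ (i : ℕ) + 2 →
              ∃ u ∈ Subgroup.closure {x : FreeGroup (Fin n) |
                  ∃ i : Fin n, (i : ℕ) + 2 < n ∧ x = FreeGroup.of i},
                ∃ v ∈ Subgroup.closure {x : FreeGroup (Fin n) |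
                    ∃ i : Fin n, (i : ℕ) + 2 < n ∧ x = FreeGroup.of i},
                  α (FreeGroup.of i) = u * FreeGroup.of i * v}).Finite := by
  intro n g hn hg φ
  exact main hn hg φ

end Pool.Agent.Work.MP_d3656f_al.Final
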